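import Pool.Agent.TH18.FV.Vcsp

/-!
# Decomposition of the cost along a depth first search
-/

set_option autoImplicit false

namespace Pool.Agent.TH18.FV

open Pool.Agent Pool.Agent.TH694.FV Pool.Agent.NPC

/-! ### Components -/

theorem reach_mono {F : Finset Ed} {A B : Finset ℕ} (h : A ⊆ B) {u v : ℕ} (hr : Reach F B u v) :
    Reach F A u v := by
  unfold Reach at hr ⊢
  refine Relation.ReflTransGen.mono ?_ _ _ hr
  exact fun _ _ h1 => ⟨fun h2 => h1.1 (h h2), h1.2⟩

theorem reach_symm {F : Finset Ed} {B : Finset ℕ} {u v : ℕ} (hu : u ∉ B) (hr : Reach F B u v) :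
    Reach F B v u := by
  induction hr with
  | refl => exact Relation.ReflTransGen.refl
  | @tail p q h1 h2 ih =>
    obtain ⟨h3, e, he, h4, h5⟩ := h2
    refine Relation.ReflTransGen.head ⟨reach_notMem h1 hu, e, he, h5, h4⟩ ih

open Classical in
/-- the component of `u` after the deletion of `A` -/
noncomputable def comp (F : Finset Ed) (A : Finset ℕ) (u : ℕ) : Finset ℕ :=
  (vs F).filter fun v => Reach F A u v

theorem mem_comp {F : Finset Ed} {A : Finset ℕ} {u v : ℕ} :
    v ∈ comp F A u ↔ v ∈ vs F ∧ Reach F A u v := by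
  simp [comp]

theorem mem_comp' {F : Finset Ed} {A : Finset ℕ} {u v : ℕ} (hu : u ∈ vs F) :
    v ∈ comp F A u ↔ Reach F A u v := by
  rw [mem_comp]
  exact ⟨fun h => h.2, fun h => ⟨reach_mem_vs h hu, h⟩⟩

theorem mem_reachL' {F : List Ed} {A : List ℕ} {u v : ℕ} (hu : u ∈ vs F.toFinset) :
    v ∈ reachL F A u ↔ v ∈ comp F.toFinset A.toFinset u := by
  rw [mem_reachL hu, mem_comp]

/-- `R` is a set of representatives of the components of `comp F A u` minus `u`. -/
structure Rep (F : Finset Ed) (A : Finset ℕ) (u : ℕ) (R : Finset ℕ) : Prop where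
  nb : ∀ x ∈ R, x ∉ insert u A ∧ ∃ e ∈ F, u ∈ ends e ∧ x ∈ ends e
  sep : ∀ x ∈ R, ∀ y ∈ R, x ≠ y → ¬ Reach F (insert u A) x y
  cover : ∀ z, z ∉ insert u A → (∃ e ∈ F, u ∈ ends e ∧ z ∈ ends e) →
    ∃ x ∈ R, Reach F (insert u A) x z

theorem mem_cand_vs {F : List Ed} {B : List ℕ} {u v : ℕ} (h : v ∈ cand F B u) :
    v ∈ vs F.toFinset := by
  rw [mem_cand] at h
  obtain ⟨_, e, he, h⟩ := h
  rw [mem_vs]
  refine ⟨e, by simpa using he, mem_ends.2 ?_⟩
  rcases h with h | h
  · exact Or.inr h.2.symm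
  · exact Or.inl h.2.symm

theorem nbL_subset {F : List Ed} {B : List ℕ} {u : ℕ} : nbL F B u ⊆ cand F B u :=
  (nb_sublist F B _).subset

theorem nbL_nodup (F : List Ed) (B : List ℕ) (u : ℕ) : (nbL F B u).Nodup := by
  have h := nb_pairwise F B (cand F B u)
  refine (List.Pairwise.and_mem.1 h).imp fun {a b} h1 h2 => ?_
  obtain ⟨h3, _, h4⟩ := h1
  subst h2
  exact h4 (mem_reachL_self (mem_vl.2 (mem_cand_vs (nbL_subset h3))))

theorem rep_nbL (F : List Ed) (A : List ℕ) (u : ℕ) :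
    Rep F.toFinset A.toFinset u (nbL F (u :: A) u).toFinset := by
  have hB : insert u A.toFinset = (u :: A).toFinset := by simp
  refine ⟨?_, ?_, ?_⟩
  · intro x hx
    rw [List.mem_toFinset] at hx
    have h1 := nbL_subset hx
    rw [mem_cand] at h1
    obtain ⟨h1, e, he, h2⟩ := h1
    rw [hB, List.mem_toFinset]
    refine ⟨h1, e, by simpa using he, ?_⟩
    rcases h2 with ⟨h2, h3⟩ | ⟨h2, h3⟩
    · exact ⟨mem_ends.2 (Or.inl h2.symm), mem_ends.2 (Or.inr h3.symm)⟩
    · exact ⟨mem_ends.2 (Or.inr h2.symm), mem_ends.2 (Or.inl h3.symm)⟩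
  · have hp := nb_pairwise F (u :: A) (cand F (u :: A) u)
    have hall : ∀ x ∈ nbL F (u :: A) u, x ∈ vs F.toFinset ∧ x ∉ (u :: A).toFinset := by
      intro x hx
      have h1 := nbL_subset hx
      exact ⟨mem_cand_vs h1, by rw [List.mem_toFinset]; exact (mem_cand.1 h1).1⟩
    have hp2 : (nbL F (u :: A) u).Pairwise (fun c x => ¬ Reach F.toFinset (u :: A).toFinset c x ∧
        ¬ Reach F.toFinset (u :: A).toFinset x c) := by
      refine (List.Pairwise.and_mem.1 hp).imp fun {a b} h1 => ?_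
      obtain ⟨h3, h4, h5⟩ := h1
      rw [mem_reachL' (hall b h4).1, mem_comp' (hall b h4).1] at h5
      exact ⟨fun h6 => h5 (reach_symm (hall a h3).2 h6), h5⟩
    intro x hx y hy hxy
    rw [List.mem_toFinset] at hx hy
    rw [hB]
    have hsym : Std.Symm (fun c x => ¬ Reach F.toFinset (u :: A).toFinset c x ∧
        ¬ Reach F.toFinset (u :: A).toFinset x c) := ⟨fun _ _ h => ⟨h.2, h.1⟩⟩
    exact (hp2.forall hx hy hxy).1
  · intro z hz h
    rw [hB, List.mem_toFinset] at hz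
    obtain ⟨e, he, h1, h2⟩ := h
    have hzu : z ≠ u := fun h => hz (by simp [h])
    have hc : z ∈ cand F (u :: A) u := by
      rw [mem_cand]
      refine ⟨hz, e, by simpa using he, ?_⟩
      rw [mem_ends] at h1 h2
      rcases h1 with h1 | h1 <;> rcases h2 with h2 | h2
      · exact absurd (h2.trans h1.symm) hzu
      · exact Or.inl ⟨h1.symm, h2.symm⟩
      · exact Or.inr ⟨h1.symm, h2.symm⟩
      · exact absurd (h2.trans h1.symm) hzu
    obtain ⟨x, hx, h3⟩ := nb_cover F (u :: A) (cand F (u :: A) u)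
      (fun c hc => mem_vl.2 (mem_cand_vs hc)) z hc
    refine ⟨x, by rw [List.mem_toFinset]; exact hx, ?_⟩
    have hxv : x ∈ vs F.toFinset := mem_cand_vs (nbL_subset hx)
    rw [mem_reachL' hxv, mem_comp' hxv] at h3
    rw [hB]
    exact h3

section

variable {F : Finset Ed} {A : Finset ℕ} {u : ℕ} {R : Finset ℕ}

theorem Rep.mem_vs (hR : Rep F A u R) {x : ℕ} (hx : x ∈ R) : x ∈ vs F := by
  obtain ⟨_, e, he, _, h⟩ := hR.nb x hx
  exact TH694.FV.mem_vs.2 ⟨e, he, h⟩

/-- other end of an edge at a component -/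
theorem comp_nb {B : Finset ℕ} {x v z : ℕ} {e : Ed} (he : e ∈ F) (hx : x ∈ vs F)
    (hv : v ∈ ends e) (hz : z ∈ ends e) (h : v ∈ comp F B x) : z ∈ B ∨ z ∈ comp F B x := by
  by_cases hzB : z ∈ B
  · exact Or.inl hzB
  · right
    rw [mem_comp' hx] at h ⊢
    exact h.tail ⟨hzB, e, he, hv, hz⟩

theorem Rep.uniq (hR : Rep F A u R) {x y v : ℕ} (hx : x ∈ R) (hy : y ∈ R)
    (h1 : v ∈ comp F (insert u A) x) (h2 : v ∈ comp F (insert u A) y) : x = y := by
  by_contra hxy
  rw [mem_comp] at h1 h2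
  exact hR.sep x hx y hy hxy (h1.2.trans (reach_symm (hR.nb y hy).1 h2.2))

theorem comp_disj {B : Finset ℕ} {x v : ℕ} (hx : x ∉ B) (h : v ∈ comp F B x) : v ∉ B :=
  reach_notMem (mem_comp.1 h).2 hx

theorem Rep.comp_eq (hR : Rep F A u R) (hu : u ∈ vs F) (huA : u ∉ A) :
    comp F A u = insert u (R.biUnion fun x => comp F (insert u A) x) := by
  ext v
  rw [mem_comp' hu, Finset.mem_insert, Finset.mem_biUnion]
  constructor
  · intro h
    induction h with
    | refl => exact Or.inl rfl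
    | @tail p q h1 h2 ih =>
      obtain ⟨hq, e, he, hp1, hq1⟩ := h2
      by_cases hqu : q = u
      · exact Or.inl hqu
      · right
        have hqB : q ∉ insert u A := by simp [hqu, hq]
        rcases ih with rfl | ⟨x, hx, hpx⟩
        · obtain ⟨x, hx, h3⟩ := hR.cover q hqB ⟨e, he, hp1, hq1⟩
          exact ⟨x, hx, (mem_comp' (hR.mem_vs hx)).2 h3⟩
        · rcases comp_nb he (hR.mem_vs hx) hp1 hq1 hpx with h | h
          · exact absurd h hqB
          · exact ⟨x, hx, h⟩
  · rintro (rfl | ⟨x, hx, h⟩)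
    · exact Relation.ReflTransGen.refl
    · obtain ⟨h1, e, he, h2, h3⟩ := hR.nb x hx
      rw [mem_comp] at h
      refine Relation.ReflTransGen.head ⟨fun h4 => h1 (by simp [h4]), e, he, h2, h3⟩ ?_
      exact reach_mono (Finset.subset_insert _ _) h.2

/-- the edges with an end in `K` -/
def touch (F : Finset Ed) (K : Finset ℕ) : Finset Ed :=
  F.filter fun e => px e ∈ K ∨ py e ∈ K

theorem mem_touch {K : Finset ℕ} {e : Ed} : e ∈ touch F K ↔ e ∈ F ∧ ∃ v ∈ ends e, v ∈ K := by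
  simp [touch, ends]

/-- the edges from `u` to `A` -/
def back (F : Finset Ed) (A : Finset ℕ) (u : ℕ) : Finset Ed :=
  F.filter fun e => (px e = u ∧ py e ∈ A) ∨ (py e = u ∧ px e ∈ A)

theorem mem_back (huA : u ∉ A) {e : Ed} :
    e ∈ back F A u ↔ e ∈ F ∧ u ∈ ends e ∧ ∃ v ∈ ends e, v ∈ A := by
  simp only [back, Finset.mem_filter, mem_ends]
  refine and_congr_right fun he => ?_
  constructor
  · rintro (⟨h1, h2⟩ | ⟨h1, h2⟩)
    · exact ⟨Or.inl h1.symm, _, Or.inr rfl, h2⟩
    · exact ⟨Or.inr h1.symm, _, Or.inl rfl, h2⟩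
  · rintro ⟨h1 | h1, v, h2 | h2, h3⟩
    · subst h1; subst h2; exact absurd h3 huA
    · subst h1; subst h2; exact Or.inl ⟨rfl, h3⟩
    · subst h1; subst h2; exact Or.inr ⟨rfl, h3⟩
    · subst h1; subst h2; exact absurd h3 huA

theorem Rep.touch_eq (hR : Rep F A u R) (hne : ∀ e ∈ F, px e ≠ py e) (hu : u ∈ vs F)
    (huA : u ∉ A) : touch F (comp F A u) =
      back F A u ∪ R.biUnion fun x => touch F (comp F (insert u A) x) := by
  ext e
  rw [Finset.mem_union, Finset.mem_biUnion, mem_touch, mem_back huA, hR.comp_eq hu huA]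
  simp only [mem_touch, Finset.mem_insert, Finset.mem_biUnion]
  constructor
  · rintro ⟨he, v, hv, h⟩
    by_cases hex : ∃ v' ∈ ends e, ∃ x ∈ R, v' ∈ comp F (insert u A) x
    · obtain ⟨v', h1, x, hx, h2⟩ := hex
      exact Or.inr ⟨x, hx, he, v', h1, h2⟩
    · left
      push Not at hex
      rcases h with rfl | ⟨x, hx, h⟩
      · refine ⟨he, hv, ?_⟩
        have h3 : ∃ z ∈ ends e, z ≠ v := by
          by_cases h4 : v = px e
          · exact ⟨py e, mem_ends.2 (Or.inr rfl), fun h5 => hne e he (h4.symm.trans h5.symm)⟩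
          · exact ⟨px e, mem_ends.2 (Or.inl rfl), fun h5 => h4 h5.symm⟩
        obtain ⟨z, hz, hzv⟩ := h3
        refine ⟨z, hz, ?_⟩
        by_contra hzA
        obtain ⟨x, hx, h4⟩ := hR.cover z (by simp [hzv, hzA]) ⟨e, he, hv, hz⟩
        exact hex z hz x hx ((mem_comp' (hR.mem_vs hx)).2 h4)
      · exact absurd h (hex v hv x hx)
  · rintro (⟨he, h1, _⟩ | ⟨x, hx, he, v, hv, h⟩)
    · exact ⟨he, u, h1, Or.inl rfl⟩
    · exact ⟨he, v, hv, Or.inr ⟨x, hx, h⟩⟩

theorem Rep.touch_disj (hR : Rep F A u R) {x y : ℕ} (hx : x ∈ R) (hy : y ∈ R) (hxy : x ≠ y) :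
    Disjoint (touch F (comp F (insert u A) x)) (touch F (comp F (insert u A) y)) := by
  rw [Finset.disjoint_left]
  intro e he1 he2
  rw [mem_touch] at he1 he2
  obtain ⟨he, v, hv, h1⟩ := he1
  obtain ⟨-, v', hv', h2⟩ := he2
  rcases comp_nb he (hR.mem_vs hx) hv hv' h1 with h | h
  · exact comp_disj (hR.nb y hy).1 h2 h
  · exact hxy (hR.uniq hx hy h h2)

theorem Rep.back_disj (hR : Rep F A u R) :
    Disjoint (back F A u) (R.biUnion fun x => touch F (comp F (insert u A) x)) := by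
  rw [Finset.disjoint_left]
  intro e he1 he2
  rw [Finset.mem_biUnion] at he2
  obtain ⟨x, hx, he2⟩ := he2
  rw [mem_touch] at he2
  obtain ⟨he, v, hv, h⟩ := he2
  have h1 := comp_disj (hR.nb x hx).1 h
  simp only [back, Finset.mem_filter] at he1
  rw [mem_ends] at hv
  apply h1
  rw [Finset.mem_insert]
  rcases he1 with ⟨-, ⟨h2, h3⟩ | ⟨h2, h3⟩⟩ <;> rcases hv with rfl | rfl
  · exact Or.inl h2
  · exact Or.inr h3
  · exact Or.inr h3
  · exact Or.inl h2

end

/-! ### The cost of a set of vertices -/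

section

variable {S : Type}

/-- the cost of the vertices of `K` and of the edges at `K` -/
def val (F : Finset Ed) (w : ℕ → S → ℕ) (g : Ed → S → S → ℕ) (K : Finset ℕ) (σ : ℕ → S) : ℕ :=
  (∑ v ∈ K, w v (σ v)) + ∑ e ∈ touch F K, g e (σ (px e)) (σ (py e))

variable {F : Finset Ed} {A : Finset ℕ} {u : ℕ} {R : Finset ℕ} {w : ℕ → S → ℕ}
  {g : Ed → S → S → ℕ}

theorem Rep.val_eq (hR : Rep F A u R) (hne : ∀ e ∈ F, px e ≠ py e) (hu : u ∈ vs F) (huA : u ∉ A)
    (σ : ℕ → S) : val F w g (comp F A u) σ =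
      (w u (σ u) + ∑ e ∈ back F A u, g e (σ (px e)) (σ (py e))) +
        ∑ x ∈ R, val F w g (comp F (insert u A) x) σ := by
  unfold val
  rw [hR.touch_eq hne hu huA, Finset.sum_union hR.back_disj,
    Finset.sum_biUnion (fun x hx y hy hxy => hR.touch_disj hx hy hxy), hR.comp_eq hu huA,
    Finset.sum_insert, Finset.sum_biUnion, Finset.sum_add_distrib]
  · ring
  · intro x hx y hy hxy
    rw [Function.onFun, Finset.disjoint_left]
    intro v h1 h2
    exact hxy (hR.uniq hx hy h1 h2)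
  · rw [Finset.mem_biUnion]
    rintro ⟨x, hx, h⟩
    exact comp_disj (hR.nb x hx).1 h (by simp)

theorem val_congr {B : Finset ℕ} {x : ℕ} (hx : x ∈ vs F) {σ τ : ℕ → S}
    (h1 : ∀ v ∈ comp F B x, σ v = τ v) (h2 : ∀ v ∈ B, σ v = τ v) :
    val F w g (comp F B x) σ = val F w g (comp F B x) τ := by
  unfold val
  congr 1
  · exact Finset.sum_congr rfl fun v hv => by rw [h1 v hv]
  · refine Finset.sum_congr rfl fun e he => ?_
    rw [mem_touch] at he
    obtain ⟨he, v, hv, h⟩ := he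
    have key : ∀ z ∈ ends e, σ z = τ z := fun z hz =>
      (comp_nb he hx hv hz h).elim (fun h => h2 z h) (fun h => h1 z h)
    rw [key _ (mem_ends.2 (Or.inl rfl)), key _ (mem_ends.2 (Or.inr rfl))]

theorem exists_ext (P : List (ℕ × S)) (hP : (P.map Prod.fst).Nodup) (Dom : List S)
    (hDom : Dom ≠ []) (hD : ∀ q ∈ P, q.2 ∈ Dom) :
    ∃ σ : ℕ → S, (∀ v, σ v ∈ Dom) ∧ ∀ q ∈ P, σ q.1 = q.2 := by
  induction P with
  | nil =>
    obtain ⟨s, hs⟩ := List.exists_mem_of_ne_nil _ hDom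
    exact ⟨fun _ => s, fun _ => hs, by simp⟩
  | cons p P ih =>
    rw [List.map_cons, List.nodup_cons] at hP
    obtain ⟨σ, h1, h2⟩ := ih hP.2 (fun q hq => hD q (by simp [hq]))
    refine ⟨Function.update σ p.1 p.2, ?_, ?_⟩
    · intro v
      by_cases h : v = p.1
      · subst h; simpa using hD p (by simp)
      · rw [Function.update_of_ne h]; exact h1 v
    · intro q hq
      rcases List.mem_cons.1 hq with rfl | hq
      · simp
      · rw [Function.update_of_ne]
        · exact h2 q hq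
        · rintro h
          exact hP.1 (h ▸ List.mem_map_of_mem hq)

theorem sum_lookup (P : List (ℕ × S)) (hP : (P.map Prod.fst).Nodup) (σ : ℕ → S)
    (hσ : ∀ q ∈ P, σ q.1 = q.2) (f : S → ℕ) (z : ℕ) :
    (P.map fun q => if z = q.1 then f q.2 else 0).sum =
      if z ∈ P.map Prod.fst then f (σ z) else 0 := by
  induction P with
  | nil => simp
  | cons p P ih =>
    rw [List.map_cons, List.nodup_cons] at hP
    rw [List.map_cons, List.sum_cons, ih hP.2 (fun q hq => hσ q (by simp [hq]))]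
    by_cases h : z = p.1
    · subst h
      have := hσ p (by simp)
      rw [if_pos rfl, if_neg hP.1, if_pos (by simp), this, add_zero]
    · have : z ∈ List.map Prod.fst (p :: P) ↔ z ∈ List.map Prod.fst P := by
        simp [h]
      rw [if_neg h, zero_add]
      simp only [this]

theorem base_eq {F : List Ed} (hF : F.Nodup) (hne : ∀ e ∈ F, px e ≠ py e) {w : ℕ → S → ℕ}
    {g : Ed → S → S → ℕ} {P : List (ℕ × S)} (hP : (P.map Prod.fst).Nodup) {σ : ℕ → S}
    (hσ : ∀ q ∈ P, σ q.1 = q.2) (u : ℕ) :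
    base F w g P u (σ u) = w u (σ u) +
      ∑ e ∈ back F.toFinset (P.map Prod.fst).toFinset u, g e (σ (px e)) (σ (py e)) := by
  unfold base
  congr 1
  rw [back, Finset.sum_filter, List.sum_toFinset _ hF]
  congr 1
  refine List.map_congr_left fun e he => ?_
  rw [List.sum_map_add]
  by_cases h1 : px e = u
  · have h2 : py e ≠ u := fun h => hne e he (h1.trans h.symm)
    simp only [h1, true_and, h2, false_and, if_false, or_false, List.mem_toFinset]
    rw [sum_lookup P hP σ hσ (fun t => g e (σ u) t) (py e)]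
    simp
  · simp only [h1, false_and, if_false, false_or, List.mem_toFinset]
    by_cases h2 : py e = u
    · simp only [h2, true_and]
      rw [sum_lookup P hP σ hσ (fun t => g e t (σ u)) (px e)]
      simp
    · simp [h2]

end

end Pool.Agent.TH18.FV
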