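import Pool.Agent.TH18.FV.Dec

/-!
# Valued constraint satisfaction over graphs with bounded paths is polynomial-time solvable
-/

set_option autoImplicit false

namespace Pool.Agent.TH18.FV

open Pool.Agent Pool.Agent.TH694.FV Pool.Agent.NPC

section

variable {S : Type}

theorem sol_spec (N : ℕ) (F : List Ed) (hF : F.Nodup) (hne : ∀ e ∈ F, px e ≠ py e)
    (Dom : List S) (hDom : Dom ≠ []) (w : ℕ → S → ℕ) (g : Ed → S → S → ℕ)
    (hN : ∀ P, Pth F.toFinset P → P.length < N) (k : ℕ) :
    ∀ (P : List (ℕ × S)) (u : ℕ), Pth F.toFinset (u :: P.map Prod.fst) → u ∈ vs F.toFinset →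
      N ≤ P.length + k → (∀ q ∈ P, q.2 ∈ Dom) →
      IsLeast {n | ∃ σ : ℕ → S, (∀ v, σ v ∈ Dom) ∧ (∀ q ∈ P, σ q.1 = q.2) ∧
        val F.toFinset w g (comp F.toFinset (P.map Prod.fst).toFinset u) σ = n}
        (sol F Dom w g k P u) := by
  induction k with
  | zero =>
    intro P u hP hu hk _
    have := hN _ hP
    rw [List.length_cons, List.length_map] at this
    omega
  | succ k ih =>
    intro P u hP hu hk hPD
    have hne' : ∀ e ∈ F.toFinset, px e ≠ py e := fun e he => hne e (by simpa using he)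
    have hnd : (u :: P.map Prod.fst).Nodup := hP.1
    have huA : u ∉ (P.map Prod.fst).toFinset := by
      rw [List.mem_toFinset]
      exact (List.nodup_cons.1 hnd).1
    have hndP : (P.map Prod.fst).Nodup := (List.nodup_cons.1 hnd).2
    set A := (P.map Prod.fst).toFinset with hA
    set R := nbL F (u :: P.map Prod.fst) u with hR
    have hrep : Rep F.toFinset A u R.toFinset := rep_nbL F (P.map Prod.fst) u
    have hRn : R.Nodup := nbL_nodup _ _ _
    -- the recursive values
    have ih' : ∀ s ∈ Dom, ∀ x ∈ R,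
        IsLeast {n | ∃ σ : ℕ → S, (∀ v, σ v ∈ Dom) ∧ (∀ q ∈ (u, s) :: P, σ q.1 = q.2) ∧
          val F.toFinset w g (comp F.toFinset (insert u A) x) σ = n}
          (sol F Dom w g k ((u, s) :: P) x) := by
      intro s hs x hx
      have hB : insert u A = (((u, s) :: P).map Prod.fst).toFinset := by simp [hA]
      rw [hB]
      obtain ⟨h1, e, he, h2, h3⟩ := hrep.nb x (by simpa using hx)
      refine ih ((u, s) :: P) x ?_ (hrep.mem_vs (by simpa using hx)) ?_ ?_
      · refine ⟨?_, ?_⟩
        · rw [List.map_cons, List.nodup_cons]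
          refine ⟨?_, hnd⟩
          intro h
          apply h1
          rw [hB, List.mem_toFinset, List.map_cons]
          exact h
        · rw [List.map_cons]
          exact List.isChain_cons_cons.2 ⟨⟨e, he, h3, h2⟩, hP.2⟩
      · rw [List.length_cons]; omega
      · intro q hq
        rcases List.mem_cons.1 hq with rfl | hq
        · exact hs
        · exact hPD q hq
    have hsol : sol F Dom w g (k + 1) P u = minL (Dom.map fun s => base F w g P u s +
        (R.map fun x => sol F Dom w g k ((u, s) :: P) x).sum) := rfl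
    obtain ⟨hm1, hm2⟩ := minL_spec (l := Dom.map fun s => base F w g P u s +
        (R.map fun x => sol F Dom w g k ((u, s) :: P) x).sum) (by simpa using hDom)
    rw [← hsol] at hm1 hm2
    constructor
    · obtain ⟨s, hs, hs'⟩ := List.mem_map.1 hm1
      have hex : ∀ x ∈ R, ∃ σ : ℕ → S, (∀ v, σ v ∈ Dom) ∧ (∀ q ∈ (u, s) :: P, σ q.1 = q.2) ∧
          val F.toFinset w g (comp F.toFinset (insert u A) x) σ =
            sol F Dom w g k ((u, s) :: P) x := fun x hx => (ih' s hs x hx).1
      obtain ⟨σ₀, h01, h02⟩ := exists_ext ((u, s) :: P) (by simpa using hnd) Dom hDom (by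
        intro q hq
        rcases List.mem_cons.1 hq with rfl | hq
        · exact hs
        · exact hPD q hq)
      have hne0 : Nonempty (ℕ → S) := ⟨σ₀⟩
      choose! τ hτ1 hτ2 hτ3 using hex
      classical
      let σ : ℕ → S := fun v => if h : ∃ x ∈ R, v ∈ comp F.toFinset (insert u A) x then
        τ h.choose v else σ₀ v
      have hσc : ∀ x ∈ R, ∀ v ∈ comp F.toFinset (insert u A) x, σ v = τ x v := by
        intro x hx v hv
        have h : ∃ x ∈ R, v ∈ comp F.toFinset (insert u A) x := ⟨x, hx, hv⟩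
        simp only [σ, dif_pos h]
        have h2 := h.choose_spec
        rw [hrep.uniq (by simpa using h2.1) (by simpa using hx) h2.2 hv]
      have hσB : ∀ v ∈ insert u A, σ v = σ₀ v := by
        intro v hv
        have h : ¬ ∃ x ∈ R, v ∈ comp F.toFinset (insert u A) x := by
          rintro ⟨x, hx, h⟩
          exact comp_disj (hrep.nb x (by simpa using hx)).1 h hv
        simp only [σ, dif_neg h]
      have hB' : ∀ v ∈ insert u A, ∃ q ∈ (u, s) :: P, q.1 = v := by
        intro v hv
        rcases Finset.mem_insert.1 hv with rfl | hv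
        · exact ⟨(v, s), by simp, rfl⟩
        · rw [hA, List.mem_toFinset, List.mem_map] at hv
          obtain ⟨q, hq, h⟩ := hv
          exact ⟨q, by simp [hq], h⟩
      have hB'' : ∀ q ∈ (u, s) :: P, q.1 ∈ insert u A := by
        intro q hq
        rcases List.mem_cons.1 hq with rfl | hq
        · simp
        · rw [Finset.mem_insert, hA, List.mem_toFinset]
          exact Or.inr (List.mem_map_of_mem hq)
      have hσP : ∀ q ∈ (u, s) :: P, σ q.1 = q.2 := fun q hq => by
        rw [hσB _ (hB'' q hq)]; exact h02 q hq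
      refine ⟨σ, ?_, fun q hq => hσP q (by simp [hq]), ?_⟩
      · intro v
        by_cases h : ∃ x ∈ R, v ∈ comp F.toFinset (insert u A) x
        · obtain ⟨x, hx, h⟩ := h
          rw [hσc x hx v h]
          exact hτ1 x hx v
        · simp only [σ, dif_neg h]; exact h01 v
      · rw [hrep.val_eq hne' hu huA, ← hs']
        have hσu : σ u = s := hσP (u, s) (by simp)
        rw [← base_eq hF hne hndP (fun q hq => hσP q (by simp [hq])) u, hσu]
        congr 1
        rw [← List.sum_toFinset _ hRn]
        refine Finset.sum_congr rfl fun x hx => ?_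
        rw [List.mem_toFinset] at hx
        rw [← hτ3 x hx]
        refine val_congr (hrep.mem_vs (by simpa using hx)) (hσc x hx) ?_
        intro v hv
        obtain ⟨q, hq, rfl⟩ := hB' v hv
        rw [hσP q hq, hτ2 x hx q hq]
    · rintro n ⟨σ, h1, h2, rfl⟩
      rw [hrep.val_eq hne' hu huA, ← base_eq hF hne hndP h2 u]
      refine (hm2 _ (List.mem_map_of_mem (h1 u))).trans ?_
      apply Nat.add_le_add_left
      rw [← List.sum_toFinset _ hRn]
      refine Finset.sum_le_sum fun x hx => ?_
      rw [List.mem_toFinset] at hx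
      refine (ih' (σ u) (h1 u) x hx).2 ⟨σ, h1, ?_, rfl⟩
      intro q hq
      rcases List.mem_cons.1 hq with rfl | hq
      · rfl
      · exact h2 q hq

end

theorem comp_conn {F : Finset Ed} (hF : Conn F) {e : Ed} (he : e ∈ F) :
    comp F ∅ (px e) = vs F := by
  have hu : px e ∈ vs F := mem_vs.2 ⟨e, he, mem_ends.2 (Or.inl rfl)⟩
  refine Finset.Subset.antisymm (fun v hv => (mem_comp.1 hv).1) ?_
  have key : ∀ f ∈ F, px f ∈ comp F ∅ (px e) := by
    by_contra hcon
    push Not at hcon
    obtain ⟨f, hf, hf'⟩ := hcon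
    set K := F.filter (fun f => px f ∈ comp F ∅ (px e)) with hK
    have h1 : K.Nonempty := ⟨e, by
      rw [hK, Finset.mem_filter, mem_comp' hu]; exact ⟨he, Relation.ReflTransGen.refl⟩⟩
    have h2 : (F \ K).Nonempty := ⟨f, by simp [hK, hf, hf']⟩
    have h3 := hF.2 K (Finset.filter_subset _ _) h1 h2
    rw [Finset.not_disjoint_iff] at h3
    obtain ⟨v, h4, h5⟩ := h3
    rw [mem_vs] at h4 h5
    obtain ⟨a, ha, hva⟩ := h4
    obtain ⟨b, hb, hvb⟩ := h5
    rw [hK, Finset.mem_filter] at ha
    rw [Finset.mem_sdiff, hK, Finset.mem_filter] at hb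
    obtain ⟨hbF, hb⟩ := hb
    apply hb
    refine ⟨hbF, ?_⟩
    have h6 : v ∈ comp F ∅ (px e) :=
      (comp_nb ha.1 hu (mem_ends.2 (Or.inl rfl)) hva ha.2).elim (fun h => by simp at h) id
    exact (comp_nb hbF hu hvb (mem_ends.2 (Or.inl rfl)) h6).elim (fun h => by simp at h) id
  intro v hv
  rw [mem_vs] at hv
  obtain ⟨f, hf, hv⟩ := hv
  exact (comp_nb hf hu (mem_ends.2 (Or.inl rfl)) hv (key f hf)).elim (fun h => by simp at h) id

end Pool.Agent.TH18.FV

namespace Pool.Agent.TH694.FV

open Pool.Agent Pool.Agent.TH18.FV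

theorem exists_vcsp (N : ℕ) {α S : Type} [NPC.TEnc α] [NPC.TEnc S] (F : α → List Ed)
    (Dom : α → List S) (w : α → ℕ → S → ℕ) (g : α → Ed → S → S → ℕ)
    (hF : NPC.Poly F) (hDom : NPC.Poly Dom)
    (hw : NPC.Poly (fun p : α × ℕ × S => w p.1 p.2.1 p.2.2))
    (hg : NPC.Poly (fun p : α × Ed × S × S => g p.1 p.2.1 p.2.2.1 p.2.2.2)) :
    ∃ f : α → ℕ, NPC.Poly f ∧ ∀ a, (F a).Nodup → (∀ e ∈ F a, px e ≠ py e) →
      Conn (F a).toFinset → Dom a ≠ [] → (∀ P, Pth (F a).toFinset P → P.length < N) →
      IsLeast {n | ∃ σ : ℕ → S, (∀ v, σ v ∈ Dom a) ∧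
        (∑ v ∈ vs (F a).toFinset, w a v (σ v)) +
          (∑ e ∈ (F a).toFinset, g a e (σ (px e)) (σ (py e))) = n} (f a) := by
  refine ⟨fun a => sol (F a) (Dom a) (w a) (g a) N [] (((F a).map px).head?.getD 0), ?_, ?_⟩
  · have h0 : NPC.Poly (fun a => ((F a).map px).head?.getD 0) :=
      NPC.Poly.optGetD (o := fun a => ((F a).map px).head?) (g := fun _ => 0)
        (by fun_prop) (by fun_prop)
    exact (poly_sol hF hDom hw hg N).comp
      (f := fun a => (a, ([] : List (ℕ × S)), ((F a).map px).head?.getD 0)) (by fun_prop)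
  · intro a h1 h2 h3 h4 h5
    have hne : F a ≠ [] := by
      intro h
      obtain ⟨e, he⟩ := h3.1
      simp [h] at he
    obtain ⟨e, t, het⟩ := List.exists_cons_of_ne_nil hne
    have he : e ∈ (F a).toFinset := by simp [het]
    have hu : ((F a).map px).head?.getD 0 = px e := by rw [het]; rfl
    have hue : px e ∈ vs (F a).toFinset := mem_vs.2 ⟨e, he, mem_ends.2 (Or.inl rfl)⟩
    have := sol_spec N (F a) h1 h2 (Dom a) h4 (w a) (g a) h5 N [] (px e)
      ⟨by simp, by simp⟩ hue (by simp) (by simp)
    rw [← hu] at this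
    have hc : comp (F a).toFinset (([] : List (ℕ × S)).map Prod.fst).toFinset
        (((F a).map px).head?.getD 0) = vs (F a).toFinset := by
      rw [hu]
      simpa using comp_conn h3 he
    rw [hc] at this
    have ht : touch (F a).toFinset (vs (F a).toFinset) = (F a).toFinset := by
      ext f
      rw [mem_touch]
      refine ⟨fun h => h.1, fun h => ⟨h, px f, mem_ends.2 (Or.inl rfl), ?_⟩⟩
      exact mem_vs.2 ⟨f, h, mem_ends.2 (Or.inl rfl)⟩
    simpa [val, ht] using this

end Pool.Agent.TH694.FV
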