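import Pool.Agent.TH694.FV.Defs2
import Pool.Agent.NPC.Dec
import Pool.Agent.H671R2.PolyAuto
import Pool.Agent.H601R2.PP

/-!
# Reachability in labelled multigraphs, in polynomial time
-/

set_option autoImplicit false

namespace Pool.Agent.TH18.FV

open Pool.Agent Pool.Agent.TH694.FV Pool.Agent.NPC

theorem sz_sublist_le {β : Type} [TEnc β] {l l' : List β} (h : l.Sublist l') : sz l ≤ sz l' := by
  induction h with
  | slnil => exact le_rfl
  | cons a _ ih => simp; omega
  | cons_cons a _ ih => simp; omega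

/-- the vertices, as a list -/
def vl (F : List Ed) : List ℕ := F.flatMap fun e => [px e, py e]

theorem mem_vl {F : List Ed} {v : ℕ} : v ∈ vl F ↔ v ∈ vs F.toFinset := by
  simp [vl, mem_vs, mem_ends]

theorem poly_px : Poly (fun e : Ed => px e) := by unfold px; fun_prop
theorem poly_py : Poly (fun e : Ed => py e) := by unfold py; fun_prop

attribute [fun_prop] poly_px poly_py

theorem poly_vl : Poly vl := by
  unfold vl
  fun_prop

attribute [fun_prop] poly_vl

/-- one round of the search -/
def rstep (F : List Ed) (A R : List ℕ) : List ℕ :=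
  (vl F).filter fun v => decide (v ∈ R) || (!(decide (v ∈ A)) && F.any fun e =>
    (decide (px e = v) && decide (py e ∈ R)) || (decide (py e = v) && decide (px e ∈ R)))

theorem mem_rstep {F : List Ed} {A R : List ℕ} {v : ℕ} :
    v ∈ rstep F A R ↔ v ∈ vl F ∧ (v ∈ R ∨ (v ∉ A ∧ ∃ e ∈ F,
      (px e = v ∧ py e ∈ R) ∨ (py e = v ∧ px e ∈ R))) := by
  simp [rstep]

theorem poly_rstep : Poly (fun p : List Ed × List ℕ × List ℕ => rstep p.1 p.2.1 p.2.2) := by
  unfold rstep
  fun_prop

/-- the vertices which can be reached from `u` avoiding `A` -/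
def reachL (F : List Ed) (A : List ℕ) (u : ℕ) : List ℕ :=
  (rstep F A)^[(vl F).length] ((vl F).filter fun v => decide (v = u))

theorem iter_sublist (F : List Ed) (A : List ℕ) (u : ℕ) (k : ℕ) :
    ((rstep F A)^[k] ((vl F).filter fun v => decide (v = u))).Sublist (vl F) := by
  cases k with
  | zero => exact List.filter_sublist
  | succ k => rw [Function.iterate_succ_apply']; exact List.filter_sublist

theorem poly_reachL : Poly (fun p : List Ed × List ℕ × ℕ => reachL p.1 p.2.1 p.2.2) := by
  unfold reachL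
  have h1 : Poly (fun p : List Ed × List ℕ × ℕ => vl p.1) := by fun_prop
  obtain ⟨q, hq⟩ := h1.sz_le
  refine Poly.iterLen (l := fun p : List Ed × List ℕ × ℕ => vl p.1)
    (s := fun p => (vl p.1).filter fun v => decide (v = p.2.2))
    (F := fun p s => rstep p.1 p.2.1 s) h1 (by fun_prop) ?_ q ?_
  · exact poly_rstep.comp (f := fun p : (List Ed × List ℕ × ℕ) × List ℕ => (p.1.1, p.1.2.1, p.2))
      (by fun_prop)
  · intro a k hk
    exact (sz_sublist_le (iter_sublist _ _ _ _)).trans (hq a)

theorem poly_reachL' {α : Type} [TEnc α] {F : α → List Ed} {A : α → List ℕ} {u : α → ℕ}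
    (hF : Poly F) (hA : Poly A) (hu : Poly u) : Poly (fun a => reachL (F a) (A a) (u a)) :=
  poly_reachL.comp (f := fun a => (F a, A a, u a)) (by fun_prop)

attribute [fun_prop] poly_reachL'

/-- the steps which generate reachability -/
theorem step_iff {F : List Ed} {A : List ℕ} {p q : ℕ} (hpq : p ≠ q) :
    (q ∉ A.toFinset ∧ ∃ e ∈ F.toFinset, p ∈ ends e ∧ q ∈ ends e) ↔
      (q ∉ A ∧ ∃ e ∈ F, (px e = q ∧ py e = p) ∨ (py e = q ∧ px e = p)) := by
  simp only [List.mem_toFinset, mem_ends]
  refine and_congr_right fun _ => exists_congr fun e => and_congr_right fun he => ?_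
  constructor
  · rintro ⟨h1 | h1, h2 | h2⟩
    · exact absurd (h1.trans h2.symm) hpq
    · exact Or.inr ⟨h2.symm, h1.symm⟩
    · exact Or.inl ⟨h2.symm, h1.symm⟩
    · exact absurd (h1.trans h2.symm) hpq
  · rintro (⟨h1, h2⟩ | ⟨h1, h2⟩)
    · exact ⟨Or.inr h2.symm, Or.inl h1.symm⟩
    · exact ⟨Or.inl h2.symm, Or.inr h1.symm⟩

theorem reach_mem_vs {F : Finset Ed} {A : Finset ℕ} {u v : ℕ} (h : Reach F A u v)
    (hu : u ∈ vs F) : v ∈ vs F := by
  induction h with
  | refl => exact hu
  | tail _ h2 _ =>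
    obtain ⟨_, e, he, _, h⟩ := h2
    exact mem_vs.2 ⟨e, he, h⟩

theorem reach_notMem {F : Finset Ed} {A : Finset ℕ} {u v : ℕ} (h : Reach F A u v)
    (hu : u ∉ A) : v ∉ A := by
  induction h with
  | refl => exact hu
  | tail _ h2 _ => exact h2.1

theorem iter_sound {F : List Ed} {A : List ℕ} {u : ℕ} (k : ℕ) :
    ∀ v ∈ (rstep F A)^[k] ((vl F).filter fun v => decide (v = u)),
      Reach F.toFinset A.toFinset u v := by
  induction k with
  | zero =>
    intro v hv
    have : v = u := by simpa using (List.mem_filter.1 hv).2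
    rw [this]
    exact Relation.ReflTransGen.refl
  | succ k ih =>
    intro v hv
    rw [Function.iterate_succ_apply', mem_rstep] at hv
    obtain ⟨_, h | ⟨h, e, he, h2 | h2⟩⟩ := hv
    · exact ih v h
    · refine Relation.ReflTransGen.tail (ih _ h2.2) ⟨by simpa using h, e, by simpa using he, ?_, ?_⟩
      · exact mem_ends.2 (Or.inr rfl)
      · exact mem_ends.2 (Or.inl h2.1.symm)
    · refine Relation.ReflTransGen.tail (ih _ h2.2) ⟨by simpa using h, e, by simpa using he, ?_, ?_⟩
      · exact mem_ends.2 (Or.inl rfl)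
      · exact mem_ends.2 (Or.inr h2.1.symm)

theorem subset_rstep {F : List Ed} {A R : List ℕ} (hR : R ⊆ vl F) : R ⊆ rstep F A R :=
  fun _ hv => mem_rstep.2 ⟨hR hv, Or.inl hv⟩

theorem rstep_mono {F : List Ed} {A R R' : List ℕ} (h : R ⊆ R') : rstep F A R ⊆ rstep F A R' := by
  intro v hv
  rw [mem_rstep] at hv ⊢
  obtain ⟨h1, h2 | ⟨h2, e, he, h3⟩⟩ := hv
  · exact ⟨h1, Or.inl (h h2)⟩
  · exact ⟨h1, Or.inr ⟨h2, e, he, h3.imp (fun h4 => ⟨h4.1, h h4.2⟩) fun h4 => ⟨h4.1, h h4.2⟩⟩⟩

theorem iter_closed_or (F : List Ed) (A : List ℕ) (R₀ : List ℕ) (h0 : R₀ ⊆ vl F) (k : ℕ) :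
    (rstep F A)^[k] R₀ ⊆ vl F ∧ (rstep F A ((rstep F A)^[k] R₀) ⊆ (rstep F A)^[k] R₀ ∨
      k ≤ ((rstep F A)^[k] R₀).toFinset.card) := by
  induction k with
  | zero => exact ⟨h0, Or.inr (Nat.zero_le _)⟩
  | succ k ih =>
    rw [Function.iterate_succ_apply']
    set R := (rstep F A)^[k] R₀ with hR
    obtain ⟨ih1, ih2⟩ := ih
    refine ⟨fun v hv => (mem_rstep.1 hv).1, ?_⟩
    by_cases hc : rstep F A R ⊆ R
    · exact Or.inl (rstep_mono hc)
    · right
      rcases ih2 with ih2 | ih2
      · exact absurd ih2 hc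
      · have h1 : R.toFinset ⊂ (rstep F A R).toFinset := by
          rw [Finset.ssubset_iff_subset_ne]
          constructor
          · intro v hv
            rw [List.mem_toFinset] at hv ⊢
            exact subset_rstep ih1 hv
          · intro h
            apply hc
            intro v hv
            rw [← List.mem_toFinset, h, List.mem_toFinset]
            exact hv
        have := Finset.card_lt_card h1
        omega

theorem reachL_closed (F : List Ed) (A : List ℕ) (u : ℕ) :
    rstep F A (reachL F A u) ⊆ reachL F A u := by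
  have h0 : (vl F).filter (fun v => decide (v = u)) ⊆ vl F :=
    List.filter_sublist.subset
  obtain ⟨h1, h2 | h2⟩ := iter_closed_or F A _ h0 (vl F).length
  · exact h2
  · have h3 : (reachL F A u).toFinset ⊆ (vl F).toFinset := by
      intro v hv
      rw [List.mem_toFinset] at hv ⊢
      exact h1 hv
    have h4 : (vl F).toFinset.card ≤ (vl F).length := List.toFinset_card_le _
    have h5 : (reachL F A u).toFinset = (vl F).toFinset :=
      Finset.eq_of_subset_of_card_le h3 (h4.trans h2)
    intro v hv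
    rw [← List.mem_toFinset, h5, List.mem_toFinset]
    exact (mem_rstep.1 hv).1

theorem mem_reachL_self {F : List Ed} {A : List ℕ} {u : ℕ} (hu : u ∈ vl F) : u ∈ reachL F A u := by
  have key : ∀ k, u ∈ (rstep F A)^[k] ((vl F).filter fun v => decide (v = u)) := by
    intro k
    induction k with
    | zero => simpa using hu
    | succ k ih =>
      rw [Function.iterate_succ_apply']
      exact mem_rstep.2 ⟨hu, Or.inl ih⟩
  exact key _

/-- The list `reachL F A u` consists of the vertices which can be reached from `u` avoiding `A`. -/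
theorem mem_reachL {F : List Ed} {A : List ℕ} {u v : ℕ} (hu : u ∈ vs F.toFinset) :
    v ∈ reachL F A u ↔ v ∈ vs F.toFinset ∧ Reach F.toFinset A.toFinset u v := by
  constructor
  · intro h
    have := iter_sound _ v h
    exact ⟨reach_mem_vs this hu, this⟩
  · rintro ⟨-, h⟩
    induction h with
    | refl => exact mem_reachL_self (mem_vl.2 hu)
    | @tail p q h1 h2 ih =>
      by_cases hpq : p = q
      · exact hpq ▸ ih
      · rw [step_iff hpq] at h2
        obtain ⟨h3, e, he, h4⟩ := h2
        refine reachL_closed _ _ _ (mem_rstep.2 ⟨?_, Or.inr ⟨h3, e, he, ?_⟩⟩)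
        · rw [mem_vl, mem_vs]
          refine ⟨e, by simpa using he, mem_ends.2 ?_⟩
          rcases h4 with h4 | h4
          · exact Or.inl h4.1.symm
          · exact Or.inr h4.1.symm
        · rcases h4 with ⟨h4, h5⟩ | ⟨h4, h5⟩
          · exact Or.inl ⟨h4, h5 ▸ ih⟩
          · exact Or.inr ⟨h4, h5 ▸ ih⟩

end Pool.Agent.TH18.FV
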