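import Pool.Agent.TH18.FV.Reach

/-!
# Valued constraint satisfaction over labelled multigraphs with bounded paths
-/

set_option autoImplicit false

namespace Pool.Agent.TH18.FV

open Pool.Agent Pool.Agent.TH694.FV Pool.Agent.NPC

/-! ### Minimum of a list -/

/-- the minimum of a list (`0` for the empty list) -/
def minL (l : List ℕ) : ℕ := ((l.filter (fun x => l.all (fun y => decide (x ≤ y)))).head?).getD 0

theorem minL_spec {l : List ℕ} (h : l ≠ []) : minL l ∈ l ∧ ∀ y ∈ l, minL l ≤ y := by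
  unfold minL
  have h1 : l.filter (fun x => l.all (fun y => decide (x ≤ y))) ≠ [] := by
    obtain ⟨x, hx, hx'⟩ := List.toFinset l |>.exists_min_image id (by
      obtain ⟨a, ha⟩ := List.exists_mem_of_ne_nil l h
      exact ⟨a, by simpa using ha⟩)
    apply List.ne_nil_of_mem (a := x)
    simp only [List.mem_filter, List.all_eq_true, decide_eq_true_eq]
    exact ⟨by simpa using hx, fun y hy => hx' y (by simpa using hy)⟩
  obtain ⟨b, t, hb⟩ := List.exists_cons_of_ne_nil h1
  rw [hb]
  have h2 : b ∈ l.filter (fun x => l.all (fun y => decide (x ≤ y))) := by rw [hb]; simp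
  simp only [List.mem_filter, List.all_eq_true, decide_eq_true_eq] at h2
  exact h2

theorem poly_minL : Poly minL := by
  unfold minL
  exact Poly.optGetD (o := fun l : List ℕ => (l.filter (fun x => l.all (fun y => decide (x ≤ y)))).head?)
    (g := fun _ => 0) (by fun_prop) (by fun_prop)

/-! ### The neighbours of a vertex, one for every component -/

/-- neighbours of `u` outside `B` -/
def cand (F : List Ed) (B : List ℕ) (u : ℕ) : List ℕ :=
  (F.flatMap fun e => (if px e = u then [py e] else []) ++ (if py e = u then [px e] else [])).filter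
    (fun v => !(decide (v ∈ B)))

theorem mem_cand {F : List Ed} {B : List ℕ} {u v : ℕ} :
    v ∈ cand F B u ↔ v ∉ B ∧ ∃ e ∈ F, (px e = u ∧ py e = v) ∨ (py e = u ∧ px e = v) := by
  simp only [cand, List.mem_filter, List.mem_flatMap, List.mem_append, Bool.not_eq_true',
    decide_eq_false_iff_not]
  rw [and_comm]
  refine and_congr_right fun _ => exists_congr fun e => and_congr_right fun _ => ?_
  constructor
  · rintro (h | h)
    · split_ifs at h with h1
      · exact Or.inl ⟨h1, (List.mem_singleton.1 h).symm⟩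
      · simp at h
    · split_ifs at h with h1
      · exact Or.inr ⟨h1, (List.mem_singleton.1 h).symm⟩
      · simp at h
  · rintro (⟨h1, h2⟩ | ⟨h1, h2⟩)
    · left; simp [h1, h2]
    · right; simp [h1, h2]

theorem poly_cand : Poly (fun p : List Ed × List ℕ × ℕ => cand p.1 p.2.1 p.2.2) := by
  unfold cand
  fun_prop

/-- one step of the greedy choice of representatives -/
def nbStep (F : List Ed) (B : List ℕ) (c : ℕ) (acc : List ℕ) : List ℕ :=
  if acc.any (fun x => decide (c ∈ reachL F B x)) = true then acc else c :: acc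

/-- a list of neighbours of `u` outside `B`, one for every component -/
def nbL (F : List Ed) (B : List ℕ) (u : ℕ) : List ℕ := (cand F B u).foldr (nbStep F B) []

theorem nb_sublist (F : List Ed) (B : List ℕ) (l : List ℕ) :
    (l.foldr (nbStep F B) []).Sublist l := by
  induction l with
  | nil => exact List.Sublist.refl _
  | cons c l ih =>
    rw [List.foldr_cons]
    unfold nbStep
    split_ifs
    · exact ih.cons _
    · exact ih.cons_cons _

theorem nb_pairwise (F : List Ed) (B : List ℕ) (l : List ℕ) :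
    (l.foldr (nbStep F B) []).Pairwise (fun c x => c ∉ reachL F B x) := by
  induction l with
  | nil => exact List.Pairwise.nil
  | cons c l ih =>
    rw [List.foldr_cons]
    rw [nbStep]
    split_ifs with h
    · exact ih
    · refine List.Pairwise.cons ?_ ih
      intro x hx hc
      apply h
      rw [List.any_eq_true]
      exact ⟨x, hx, by simpa using hc⟩

theorem nb_cover (F : List Ed) (B : List ℕ) (l : List ℕ) (hl : ∀ c ∈ l, c ∈ vl F) :
    ∀ c ∈ l, ∃ x ∈ l.foldr (nbStep F B) [], c ∈ reachL F B x := by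
  induction l with
  | nil => intro c hc; simp at hc
  | cons c l ih =>
    intro d hd
    rw [List.foldr_cons]
    rw [nbStep]
    rcases List.mem_cons.1 hd with rfl | hd
    · split_ifs with h
      · rw [List.any_eq_true] at h
        obtain ⟨x, hx, h⟩ := h
        exact ⟨x, hx, by simpa using h⟩
      · exact ⟨d, by simp, mem_reachL_self (hl _ (by simp))⟩
    · obtain ⟨x, hx, h⟩ := ih (fun c hc => hl c (by simp [hc])) d hd
      split_ifs
      · exact ⟨x, hx, h⟩
      · exact ⟨x, by simp [hx], h⟩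

theorem poly_nbL : Poly (fun p : List Ed × List ℕ × ℕ => nbL p.1 p.2.1 p.2.2) := by
  unfold nbL
  have h1 := poly_cand
  obtain ⟨q, hq⟩ := h1.sz_le
  refine Poly.foldr (l := fun p : List Ed × List ℕ × ℕ => cand p.1 p.2.1 p.2.2)
    (s := fun _ => ([] : List ℕ)) (F := fun p c s => nbStep p.1 p.2.1 c s) h1 (NPC.Poly.const _)
    ?_ q ?_
  · unfold nbStep
    fun_prop
  · intro a k hk
    exact (sz_sublist_le ((nb_sublist _ _ _).trans (List.drop_sublist _ _))).trans (hq a)

theorem poly_nbL' {α : Type} [TEnc α] {F : α → List Ed} {A : α → List ℕ} {u : α → ℕ}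
    (hF : Poly F) (hA : Poly A) (hu : Poly u) : Poly (fun a => nbL (F a) (A a) (u a)) :=
  poly_nbL.comp (f := fun a => (F a, A a, u a)) (by fun_prop)

attribute [fun_prop] poly_nbL'

/-! ### The recursion -/

section

variable {S : Type}

/-- cost of the vertex `u` in the state `s` and of the edges from `u` to vertices of `P` -/
def base (F : List Ed) (w : ℕ → S → ℕ) (g : Ed → S → S → ℕ) (P : List (ℕ × S)) (u : ℕ) (s : S) :
    ℕ :=
  w u s + (F.map fun e => (P.map fun q => (if px e = u ∧ py e = q.1 then g e s q.2 else 0) +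
    (if py e = u ∧ px e = q.1 then g e q.2 s else 0)).sum).sum

/-- the recursion -/
def sol (F : List Ed) (Dom : List S) (w : ℕ → S → ℕ) (g : Ed → S → S → ℕ) :
    ℕ → List (ℕ × S) → ℕ → ℕ
  | 0, _, _ => 0
  | k + 1, P, u => minL (Dom.map fun s => base F w g P u s +
      ((nbL F (u :: P.map Prod.fst) u).map fun x => sol F Dom w g k ((u, s) :: P) x).sum)

theorem poly_base {α : Type} [TEnc α] [TEnc S] {F : α → List Ed} {w : α → ℕ → S → ℕ}
    {g : α → Ed → S → S → ℕ} (hF : Poly F) (hw : Poly (fun p : α × ℕ × S => w p.1 p.2.1 p.2.2))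
    (hg : Poly (fun p : α × Ed × S × S => g p.1 p.2.1 p.2.2.1 p.2.2.2)) :
    Poly (fun p : α × List (ℕ × S) × ℕ × S => base (F p.1) (w p.1) (g p.1) p.2.1 p.2.2.1 p.2.2.2) := by
  unfold base
  have h1 : Poly (fun p : α × List (ℕ × S) × ℕ × S => w p.1 p.2.2.1 p.2.2.2) :=
    hw.comp (f := fun p : α × List (ℕ × S) × ℕ × S => (p.1, p.2.2.1, p.2.2.2)) (by fun_prop)
  have h2 : Poly (fun p : ((α × List (ℕ × S) × ℕ × S) × Ed) × (ℕ × S) =>
      g p.1.1.1 p.1.2 p.1.1.2.2.2 p.2.2) :=
    hg.comp (f := fun p : ((α × List (ℕ × S) × ℕ × S) × Ed) × (ℕ × S) =>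
      (p.1.1.1, p.1.2, p.1.1.2.2.2, p.2.2)) (by fun_prop)
  have h3 : Poly (fun p : ((α × List (ℕ × S) × ℕ × S) × Ed) × (ℕ × S) =>
      g p.1.1.1 p.1.2 p.2.2 p.1.1.2.2.2) :=
    hg.comp (f := fun p : ((α × List (ℕ × S) × ℕ × S) × Ed) × (ℕ × S) =>
      (p.1.1.1, p.1.2, p.2.2, p.1.1.2.2.2)) (by fun_prop)
  fun_prop

theorem poly_sol {α : Type} [TEnc α] [TEnc S] {F : α → List Ed} {Dom : α → List S}
    {w : α → ℕ → S → ℕ}
    {g : α → Ed → S → S → ℕ} (hF : Poly F) (hDom : Poly Dom)
    (hw : Poly (fun p : α × ℕ × S => w p.1 p.2.1 p.2.2))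
    (hg : Poly (fun p : α × Ed × S × S => g p.1 p.2.1 p.2.2.1 p.2.2.2)) (k : ℕ) :
    Poly (fun p : α × List (ℕ × S) × ℕ => sol (F p.1) (Dom p.1) (w p.1) (g p.1) k p.2.1 p.2.2) := by
  induction k with
  | zero => exact NPC.Poly.const 0
  | succ k ih =>
    simp only [sol]
    have h1 : Poly (fun p : (α × List (ℕ × S) × ℕ) × S =>
        base (F p.1.1) (w p.1.1) (g p.1.1) p.1.2.1 p.1.2.2 p.2) :=
      (poly_base hF hw hg).comp (f := fun p : (α × List (ℕ × S) × ℕ) × S =>
        (p.1.1, p.1.2.1, p.1.2.2, p.2)) (by fun_prop)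
    have h2 : Poly (fun p : ((α × List (ℕ × S) × ℕ) × S) × ℕ =>
        sol (F p.1.1.1) (Dom p.1.1.1) (w p.1.1.1) (g p.1.1.1) k
          ((p.1.1.2.2, p.1.2) :: p.1.1.2.1) p.2) :=
      ih.comp (f := fun p : ((α × List (ℕ × S) × ℕ) × S) × ℕ =>
        (p.1.1.1, (p.1.1.2.2, p.1.2) :: p.1.1.2.1, p.2)) (by fun_prop)
    refine poly_minL.comp ?_
    fun_prop

end

end Pool.Agent.TH18.FV
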